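import Pool.Agent.R1.MajI

/-!
# Strong majority edge-colourings of Eulerian graphs

Every Eulerian graph (connected, with at least one edge, all degrees even) has a strong majority
edge-colouring with three colours.
-/

set_option autoImplicit false

namespace Pool.Agent.Results.MP_dcf3dc_co.EulerianThree

/-- The colouring `c` of the edges of `G` is a strong majority edge-colouring: for every edge `uv`
and every colour `i`, the number of edges `f` of colour `i` with `|f ∩ {u, v}| = 1` is at most
`(d(u) + d(v)) / 2 - 1`. (Only the values of `c` on the edges of `G` matter.) -/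
def IsStrongMajority {V : Type} [Fintype V] [DecidableEq V] (G : SimpleGraph V)
    [DecidableRel G.Adj] {k : ℕ} (c : Sym2 V → Fin k) : Prop :=
  ∀ u v : V, G.Adj u v → ∀ i : Fin k,
    (((G.edgeFinset.filter
      (fun f => ((u ∈ f ∧ v ∉ f) ∨ (u ∉ f ∧ v ∈ f)) ∧ c f = i)).card : ℕ) : ℚ) ≤
      ((G.degree u : ℚ) + (G.degree v : ℚ)) / 2 - 1

/-- `Maj'(G)`: the least number of colours of a strong majority edge-colouring of `G` -/
noncomputable def maj {V : Type} [Fintype V] [DecidableEq V] (G : SimpleGraph V)
    [DecidableRel G.Adj] : ℕ :=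
  sInf {k : ℕ | ∃ c : Sym2 V → Fin k, IsStrongMajority G c}

/-- `G` is Eulerian: connected, with at least one edge, and all vertex degrees are even -/
def IsEulerianGraph {V : Type} [Fintype V] [DecidableEq V] (G : SimpleGraph V)
    [DecidableRel G.Adj] : Prop :=
  G.Connected ∧ G.edgeSet.Nonempty ∧ ∀ v : V, Even (G.degree v)

/-- Every Eulerian graph `G` has a strong majority edge-colouring with three colours; in
particular `Maj'(G) ≤ 3`. -/
theorem result (V : Type) [Fintype V] [DecidableEq V] (G : SimpleGraph V) [DecidableRel G.Adj]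
    (hG : IsEulerianGraph G) :
    (∃ c : Sym2 V → Fin 3, IsStrongMajority G c) ∧ maj G ≤ 3 := by
  obtain ⟨c, hc⟩ := Pool.Agent.R1.Maj.main G hG.1 hG.2.1 hG.2.2
  have h : ∃ c : Sym2 V → Fin 3, IsStrongMajority G c := ⟨c, hc⟩
  exact ⟨h, Nat.sInf_le h⟩

end Pool.Agent.Results.MP_dcf3dc_co.EulerianThree
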